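import Pool.Agent.U286.LD.Upper

set_option autoImplicit false

/-!
# `M[1]` and `W[1]`: the degree of the output bits of deterministic reductions (MP_ddf912_lc)

A truth-table reduction from the clique problem to `p-log-SAT(Γ_{1,d})` asks for `Q` formulas with
`v ≤ g(k) log (f(k) n ^ c)` variables and at most `d` literals per clause whether they are
satisfiable; its output bits say, for all `i < Q` and all clauses `cl`, whether `cl` belongs to the
`i`-th formula. We only require that it is right on the graphs which have a clique of `k` vertices
and on the graph without edges. Here it is shown: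

* (1) Let `k ≥ 2` and let `K` be a field. If `M` functions of the adjacency bits with at most `a + 1` values in `K`,
  each of them a sum over `K` of arbitrarily many functions of at most `D` adjacency bits, determine
  for these graphs whether there is a clique of `k` vertices, then `n² ≤ 4 k² M a D`.
* (2) If `M` linear forms modulo `m` in the adjacency bits determine this, then
  `n² ≤ 4 k² m (log m) M`. Here `m` may be composite and the coefficients are arbitrary.
* (3), (4) The same for reductions to `p-log-SAT(Γ_{1,d})`; the output bits have degree at most `D` over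
  `K`, or each of them is an arbitrary function of one linear form modulo `m`. So for large `n` the
  number of questions is at least `n ^ (2 - ε) / D`, or `n ^ (2 - ε) / (m log m)`.
* (5) These bounds are sharp up to factors `n ^ ε` and `log m`: with `Q D ≥ n ^ 2`, or
  `Q (m - 1) ≥ n ^ 2`, there are such reductions.

The classes of functions contain all decision trees of depth `D`, and polynomials of degree `D` over
`F_p` with arbitrarily many terms, for example the sum modulo 2 of all adjacency bits, which is not in
the parallel, monotone and word models of other results. In (1) one field is essential: over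
`F_2` and `F_3` together the disjunction of `N` bits is determined by two bits of degree `O(√N)`
(Barrington, Beigel and Rudich). It is also essential that the reductions are deterministic: the sum
modulo 2 of random products of `k (k - 1) / 2` adjacency bits (one for every set of `k` vertices) is a
reduction with one question which errs with probability `1 / 2`, and only if there is a clique. (The
last two facts are not proved here.)

Method. Let `p ≥ k` be a prime, `k p ≤ n`. The `p ^ 2` lines `{(i, a i + b) : i < k}` in
`{0, …, k - 1} × F_p` are cliques without common edges. In the unions of some of these cliques every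
adjacency bit depends on at most one of the `p ^ 2` bits which describe the union, and the answer is
the disjunction of these bits, which has degree `p ^ 2` over every field. For linear forms modulo
`m`: there is a nonempty set of lines for which the sum of the values of the forms vanishes (theorem
of van Emde Boas and Kruyswijk, with the proof of Alon, Granville and Pomerance), and the union of
these lines is not distinguished from the graph without edges.
-/

namespace Pool.Agent.Results.MP_ddf912_lc.LowDegreeReductions

open Filter Pool.Agent.R562.QH Pool.Agent.U286.LD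

theorem result :
    -- (1) functions of small degree over a field
    (∀ (K : Type) [Field K] (n k M a D : ℕ), 2 ≤ k → 2 * k ^ 2 ≤ n →
      ∀ y : Fin M → (Pairs n → Bool) → K, (∀ j, Deg K D (y j)) →
      (∀ j, ∃ A : Finset K, A.card ≤ a + 1 ∧ ∀ x, y j x ∈ A) →
      ∀ F : (Fin M → K) → Bool, F (fun j => y j (empt n)) = false →
      (∀ x, ¬ (graph x).CliqueFree k → F (fun j => y j x) = true) →
      n ^ 2 ≤ 4 * k ^ 2 * (M * a * D)) ∧
    -- (2) linear forms modulo `m`
    (∀ n k M m : ℕ, 2 ≤ k → 2 * k ^ 2 ≤ n → 2 ≤ m →
      ∀ (c : Fin M → Pairs n → ZMod m) (F : (Fin M → ZMod m) → Bool), F (fun _ => 0) = false →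
      (∀ x, ¬ (graph x).CliqueFree k → F (fun j => form (c j) x) = true) →
      (n : ℝ) ^ 2 ≤ 4 * k ^ 2 * (m * Real.log m * M)) ∧
    -- (3) reductions
    (∀ n k d Q v : ℕ, 2 ≤ k → 2 * k ^ 2 ≤ n →
      (∀ (K : Type) [Field K] (D : ℕ), HasReduction K n k d Q v D →
        n ^ 2 ≤ 4 * k ^ 2 * (Q * (2 * v + 1) ^ d * D)) ∧
      (∀ m : ℕ, 2 ≤ m → HasModReduction m n k d Q v →
        (n : ℝ) ^ 2 ≤ 4 * k ^ 2 * (m * Real.log m * (Q * (2 * v + 1) ^ d : ℕ)))) ∧
    -- (4) asymptotic form
    (∀ (f g : ℕ → ℕ) (c d k : ℕ), 2 ≤ k → ∀ ε : ℝ, 0 < ε → ∀ᶠ n : ℕ in atTop,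
      ∀ Q v : ℕ, v ≤ g k * (Nat.log 2 (f k * n ^ c) + 1) →
        (∀ (K : Type) [Field K] (D : ℕ), HasReduction K n k d Q v D →
          (n : ℝ) ^ (2 - ε) ≤ (Q * D : ℕ)) ∧
        (∀ m : ℕ, 2 ≤ m → HasModReduction m n k d Q v →
          (n : ℝ) ^ (2 - ε) ≤ m * Real.log m * Q)) ∧
    -- (5) there are reductions
    (∀ n k d Q v : ℕ, 2 ≤ k →
      (∀ (K : Type) [Field K] (D : ℕ), n ^ 2 ≤ Q * D → HasReduction K n k d Q v D) ∧
      (∀ m : ℕ, 2 ≤ m → n ^ 2 ≤ Q * (m - 1) → HasModReduction m n k d Q v)) := by
  refine ⟨?_, ?_, ?_, ?_, ?_⟩
  · intro K _ n k M a D hk hn y hy hA F h0 h1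
    have h := compress' (by omega) hn D a y hy hA F h0 h1
    rwa [Fintype.card_fin] at h
  · intro n k M m hk hn hm c F h0 h1
    have h := compress_mod' (by omega) hn hm c F h0 h1
    rwa [Fintype.card_fin] at h
  · intro n k d Q v hk hn
    exact ⟨fun K _ D h => reduction_bound hk hn h, fun m hm h => mod_bound hk hn hm h⟩
  · intro f g c d k hk ε hε
    filter_upwards [reduction_asy f g c d k hk ε hε, mod_asy f g c d k hk ε hε] with n h1 h2 Q v hv
    exact ⟨fun K _ D h => h1 K Q v D hv h, fun m hm h => h2 m Q v hm hv h⟩
  · intro n k d Q v hk
    exact ⟨fun K _ D h => upper_field K n k d Q v D hk h, fun m hm h => upper_mod m n k d Q v hk hm h⟩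

end Pool.Agent.Results.MP_ddf912_lc.LowDegreeReductions
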