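import Pool.Agent.H30R2.NS.Main
import Pool.Agent.H30R2.NS.Brute
import Pool.Agent.H550R2.LP.Sat
import Pool.Agent.H550R2.LP.SatUp
import Pool.Agent.H550R2.LP.Asym

/-!
# The exponent of `p-log-SAT(Γ_{1,k})` in two models with negation symmetry

The instances of `p-log-SAT(Γ_{1,k})` of size at most `m = 2 ^ b` and parameter `κ` are the
`k`-CNF formulas with `κ b = κ log m` variables and at most `m` literals, that is, at most `2 ^ b / k`
clauses. They are decided by random acyclic networks of gates which compute arbitrary functions of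
the number of their true inputs, or by random adaptive algorithms which run linear programs on the
input vector; both are required to be symmetric under a group `D` of `m ^ ρ` negation patterns of
the variables.
-/

set_option autoImplicit false

namespace Pool.Agent.Results.MP_ddf912_lc.MiniSatExponents

open Finset Filter Pool.Agent.H550R2.Lin
open Pool.Agent.H30R2.NS (Clause Sat Small RNet Net neg seth_bound eth_bound converse brute
  brute_sym brute_eval brute_card)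
open Pool.Agent.H550R2.Lift (ind)

/-- The instances of `p-log-SAT(Γ_{1,k})` with parameter `κ` and size at most `m = 2 ^ b`: the
`k`-CNF formulas with `κ b = κ log m` variables and at most `2 ^ b / k` clauses, so with at most
`m` literals. -/
def Instances (k κ b : ℕ) : Set (Set (Clause k (Fin (κ * b)))) := Small k (Fin (κ * b)) (2 ^ b / k)

/-- many clauses fit -/
theorem exists_b (k ρ : ℕ) (hk : 1 ≤ k) (hρ : 1 ≤ ρ) : ∃ b₀ : ℕ, ∀ b : ℕ, b₀ ≤ b →
    k ≤ ρ * b ∧ 2 ^ (k - 1) * (ρ * b + 1) ≤ 2 ^ b / k := by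
  set K : ℕ := k * (2 ^ (k - 1) * (ρ + 1)) with hK
  have h1 := tendsto_pow_const_div_const_pow_of_one_lt 1 (by norm_num : (1 : ℝ) < 2)
  have h2 := h1.eventually (gt_mem_nhds (show (0 : ℝ) < 1 / (K + 1) by positivity))
  obtain ⟨b₁, hb₁⟩ := (h2.and (eventually_ge_atTop (k + 1))).exists_forall_of_atTop
  refine ⟨b₁, fun b hb => ?_⟩
  obtain ⟨h3, h4⟩ := hb₁ b hb
  have hb1 : 1 ≤ b := by omega
  refine ⟨?_, ?_⟩
  · calc k ≤ b := by omega
      _ = 1 * b := (one_mul b).symm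
      _ ≤ ρ * b := Nat.mul_le_mul_right b hρ
  rw [Nat.le_div_iff_mul_le (by omega)]
  rw [pow_one, div_lt_div_iff₀ (by positivity) (by positivity), one_mul] at h3
  have h5 : b * (K + 1) < 2 ^ b := by exact_mod_cast h3
  calc 2 ^ (k - 1) * (ρ * b + 1) * k ≤ 2 ^ (k - 1) * (ρ * b + b) * k := by gcongr
    _ = b * K := by rw [hK]; ring
    _ ≤ b * (K + 1) := Nat.mul_le_mul_left b (Nat.le_succ K)
    _ ≤ 2 ^ b := h5.le

theorem pow_conv (b ρ : ℕ) (e : ℝ) :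
    ((2 : ℝ) ^ b) ^ (e * ρ) = (2 : ℝ) ^ (e * ((ρ * b : ℕ) : ℝ)) := by
  rw [← Real.rpow_natCast 2 b, ← Real.rpow_mul (by norm_num)]
  congr 1
  push_cast
  ring

theorem small_mono {k : ℕ} {X : Type} {M M' : ℕ} (h : M ≤ M') : Small k X M ⊆ Small k X M' :=
  fun _ hΦ => ⟨hΦ.1, hΦ.2.trans h⟩

/-- **The lower bounds.** -/
theorem lower : ∃ C : ℝ, ∀ k κ ρ : ℕ, 3 ≤ k → 1 ≤ ρ → ∃ b₀ : ℕ, ∀ b : ℕ, b₀ ≤ b →
    ∀ D : AddSubgroup (Fin (κ * b) → ZMod 2), Nat.card D = 2 ^ (ρ * b) →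
      (∀ R : RNet (Clause k (Fin (κ * b))), R.SymUnder D →
        R.DecidesOn (Instances k κ b) (1 / 3) →
        ((2 : ℝ) ^ b) ^ ((1 - C * (Real.log k ^ 2 / k)) * ρ) ≤ R.size) ∧
      (∀ R : RLAlg (Clause k (Fin (κ * b))), (∀ a ∈ D, R.Sym (neg a)) →
        R.DecidesOn (Instances k κ b) →
        ((2 : ℝ) ^ b) ^ ((1 - C * (Real.log k ^ 2 / k)) * ρ) ≤ R.size + 1) := by
  obtain ⟨C₁, hC₁⟩ := seth_bound
  obtain ⟨C₂, hC₂⟩ := seth_lp
  refine ⟨max C₁ C₂, fun k κ ρ hk hρ => ?_⟩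
  obtain ⟨b₀, hb₀⟩ := exists_b k ρ (by omega) hρ
  refine ⟨b₀, fun b hb D hD => ?_⟩
  obtain ⟨h1, h2⟩ := hb₀ b hb
  have hx : 0 ≤ Real.log k ^ 2 / k := by positivity
  have key : ∀ C' : ℝ, C' ≤ max C₁ C₂ →
      ((2 : ℝ) ^ b) ^ ((1 - max C₁ C₂ * (Real.log k ^ 2 / k)) * ρ) ≤
        (2 : ℝ) ^ ((1 - C' * (Real.log k ^ 2 / k)) * ((ρ * b : ℕ) : ℝ)) := by
    intro C' hC'
    rw [pow_conv]
    refine Real.rpow_le_rpow_of_exponent_le (by norm_num) ?_
    refine mul_le_mul_of_nonneg_right ?_ (Nat.cast_nonneg _)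
    have := mul_le_mul_of_nonneg_right hC' hx
    linarith
  refine ⟨fun R hR hdec => ?_, fun R hR hdec => ?_⟩
  · exact (key C₁ (le_max_left _ _)).trans
      (hC₁ k hk (ρ * b) h1 _ D hD R hR fun Φ hΦ => hdec Φ (small_mono h2 hΦ))
  · exact (key C₂ (le_max_right _ _)).trans
      (hC₂ k hk (ρ * b) h1 _ D hD R hR fun Φ hΦ => hdec Φ (small_mono h2 hΦ))

/-- **Not fixed-parameter tractable, networks.** -/
theorem notFPT_net (c : ℕ) (f : ℕ → ℕ) (κ ρ : ℕ) (hρ : 2000 * (c + 1) ≤ ρ) :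
    ∃ b₀ : ℕ, ∀ b : ℕ, b₀ ≤ b →
      ∀ D : AddSubgroup (Fin (κ * b) → ZMod 2), Nat.card D = 2 ^ (ρ * b) →
      ∀ R : RNet (Clause 3 (Fin (κ * b))), R.SymUnder D →
        R.DecidesOn (Instances 3 κ b) (1 / 3) →
        (f κ : ℝ) * ((2 : ℝ) ^ b) ^ c < R.size := by
  obtain ⟨b₁, hb₁⟩ := exists_b 3 ρ (by norm_num) (by omega)
  refine ⟨max b₁ (f κ), fun b hb D hD R hR hdec => ?_⟩
  obtain ⟨h1, h2⟩ := hb₁ b ((le_max_left _ _).trans hb)
  have h3 := eth_bound (ρ * b) _ D hD R hR fun Φ hΦ =>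
    hdec Φ (small_mono (by simpa using h2) hΦ)
  have h4 : (c + 1) * b ≤ ρ * b / 2000 := by
    rw [Nat.le_div_iff_mul_le (by norm_num)]
    calc (c + 1) * b * 2000 = 2000 * (c + 1) * b := by ring
      _ ≤ ρ * b := Nat.mul_le_mul_right b hρ
  have h5 : (2 : ℝ) ^ ((c + 1) * b) ≤ R.size :=
    (pow_le_pow_right₀ (by norm_num) h4).trans h3
  have h6 : (f κ : ℝ) < 2 ^ b := by
    have : f κ < 2 ^ f κ := Nat.lt_two_pow_self
    have h7 : f κ < 2 ^ b := this.trans_le (Nat.pow_le_pow_right (by norm_num)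
      ((le_max_right _ _).trans hb))
    exact_mod_cast h7
  refine lt_of_lt_of_le ?_ h5
  have h8 : (2 : ℝ) ^ ((c + 1) * b) = 2 ^ b * (2 ^ b) ^ c := by
    rw [mul_comm, pow_mul, pow_succ]
    ring
  rw [h8]
  exact mul_lt_mul_of_pos_right h6 (by positivity)

/-- **Not fixed-parameter tractable, linear programs.** -/
theorem notFPT_lp : ∃ k : ℕ, 3 ≤ k ∧ ∀ (c : ℕ) (f : ℕ → ℕ) (κ ρ : ℕ), 2 * (c + 1) ≤ ρ →
    ∃ b₀ : ℕ, ∀ b : ℕ, b₀ ≤ b →
      ∀ D : AddSubgroup (Fin (κ * b) → ZMod 2), Nat.card D = 2 ^ (ρ * b) →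
      ∀ R : RLAlg (Clause k (Fin (κ * b))), (∀ a ∈ D, R.Sym (neg a)) →
        R.DecidesOn (Instances k κ b) →
        (f κ : ℝ) * ((2 : ℝ) ^ b) ^ c < R.size := by
  obtain ⟨C, hC⟩ := lower
  obtain ⟨k, hk, hk'⟩ := exists_kk C (1 / 2) (by norm_num)
  refine ⟨k, hk, fun c f κ ρ hρ => ?_⟩
  obtain ⟨b₁, hb₁⟩ := hC k κ ρ hk (by omega)
  refine ⟨max b₁ (f κ + 1), fun b hb D hD R hR hdec => ?_⟩
  have h3 := (hb₁ b ((le_max_left _ _).trans hb) D hD).2 R hR hdec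
  have hbase : (1 : ℝ) ≤ 2 ^ b := one_le_pow₀ (by norm_num)
  have hρ' : (2 : ℝ) * (c + 1) ≤ ρ := by exact_mod_cast hρ
  have h4 : ((2 : ℝ) ^ b) ^ (c + 1) ≤ R.size + 1 := by
    refine le_trans ?_ h3
    rw [← Real.rpow_natCast (((2 : ℝ) ^ b)) (c + 1)]
    refine Real.rpow_le_rpow_of_exponent_le hbase ?_
    push_cast
    have h5 : (1 : ℝ) / 2 ≤ 1 - C * (Real.log k ^ 2 / k) := by linarith
    have h6 : (1 : ℝ) / 2 * ρ ≤ (1 - C * (Real.log k ^ 2 / k)) * ρ :=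
      mul_le_mul_of_nonneg_right h5 (Nat.cast_nonneg _)
    linarith
  have h6 : (f κ : ℝ) + 2 ≤ 2 ^ b := by
    have : f κ + 1 < 2 ^ (f κ + 1) := Nat.lt_two_pow_self
    have h7 : f κ + 1 < 2 ^ b := this.trans_le (Nat.pow_le_pow_right (by norm_num)
      ((le_max_right _ _).trans hb))
    have h8 : f κ + 2 ≤ 2 ^ b := h7
    exact_mod_cast h8
  have h9 : (1 : ℝ) ≤ ((2 : ℝ) ^ b) ^ c := one_le_pow₀ hbase
  rw [pow_succ] at h4
  nlinarith

/-- **Exponents of `p-log-SAT(Γ_{1,k})`, the problems which define `M[1]`, in two models.**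
Write `m = 2 ^ b`. There is a constant `C` such that the following holds.
(1) For `k ≥ 3`, `ρ ≥ 1`, `κ` and all large `b`: random networks (random adaptive linear
programming algorithms) which are symmetric under a group `D` of `m ^ ρ` negation patterns and
decide the `k`-CNF formulas with `κ log m` variables and at most `m` literals have size at least
`m ^ ((1 - C log² k / k) ρ)` (at least `m ^ ((1 - C log² k / k) ρ) - 1`).
(2) For every function `f` and every `c`, if `ρ ≥ 2000 (c + 1)` then for all large `b` the size of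
such networks for 3-CNF formulas is greater than `f κ * m ^ c`; for some `k` this holds for the
linear programming algorithms for `k`-CNF formulas and `ρ ≥ 2 (c + 1)`. In particular (`ρ = κ`) the
problem `p-log-SAT(Γ_{1,3})`, or `p-log-SAT(Γ_{1,k})`, is not fixed-parameter tractable in the model.
(3) Exhaustive search is symmetric under all `m ^ κ` negation patterns: there are such networks with
`m ^ κ + (2 κ b) ^ k + 1` gates and such linear programs with `m ^ κ` nonnegative variables. So for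
`ρ = κ` the exponents in (1) are sharp up to the factor `1 - C log² k / k`.
(4) Every random network with error `1 / 6` can be made symmetric under `D`, with error `1 / 3`, at
the price of a factor `m ^ ρ` (and one more gate). -/
theorem result :
    (∃ C : ℝ, ∀ k κ ρ : ℕ, 3 ≤ k → 1 ≤ ρ → ∃ b₀ : ℕ, ∀ b : ℕ, b₀ ≤ b →
      ∀ D : AddSubgroup (Fin (κ * b) → ZMod 2), Nat.card D = 2 ^ (ρ * b) →
        (∀ R : RNet (Clause k (Fin (κ * b))), R.SymUnder D →
          R.DecidesOn (Instances k κ b) (1 / 3) →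
          ((2 : ℝ) ^ b) ^ ((1 - C * (Real.log k ^ 2 / k)) * ρ) ≤ R.size) ∧
        (∀ R : RLAlg (Clause k (Fin (κ * b))), (∀ a ∈ D, R.Sym (neg a)) →
          R.DecidesOn (Instances k κ b) →
          ((2 : ℝ) ^ b) ^ ((1 - C * (Real.log k ^ 2 / k)) * ρ) ≤ R.size + 1)) ∧
    ((∀ (c : ℕ) (f : ℕ → ℕ) (κ ρ : ℕ), 2000 * (c + 1) ≤ ρ → ∃ b₀ : ℕ, ∀ b : ℕ, b₀ ≤ b →
      ∀ D : AddSubgroup (Fin (κ * b) → ZMod 2), Nat.card D = 2 ^ (ρ * b) →
      ∀ R : RNet (Clause 3 (Fin (κ * b))), R.SymUnder D →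
        R.DecidesOn (Instances 3 κ b) (1 / 3) → (f κ : ℝ) * ((2 : ℝ) ^ b) ^ c < R.size) ∧
      ∃ k : ℕ, 3 ≤ k ∧ ∀ (c : ℕ) (f : ℕ → ℕ) (κ ρ : ℕ), 2 * (c + 1) ≤ ρ →
      ∃ b₀ : ℕ, ∀ b : ℕ, b₀ ≤ b →
      ∀ D : AddSubgroup (Fin (κ * b) → ZMod 2), Nat.card D = 2 ^ (ρ * b) →
      ∀ R : RLAlg (Clause k (Fin (κ * b))), (∀ a ∈ D, R.Sym (neg a)) →
        R.DecidesOn (Instances k κ b) → (f κ : ℝ) * ((2 : ℝ) ^ b) ^ c < R.size) ∧
    (∀ k κ b : ℕ,
      (∃ (Gt : Type) (_ : Fintype Gt) (N : Net (Clause k (Fin (κ * b))) Gt),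
        (∀ a, N.NegSym a) ∧ (∀ Φ, N.eval Φ = true ↔ Sat Φ) ∧
          Nat.card Gt = (2 ^ b) ^ κ + (2 * (κ * b)) ^ k + 1) ∧
      ∃ P : LP (Clause k (Fin (κ * b))) (Fin ((2 ^ b) ^ κ)),
        (∀ a, ∃ π, P.IsAut (neg a) π) ∧
          ∀ Φ : Set (Clause k (Fin (κ * b))), P.Acc (ind Φ) ↔ ¬ Sat Φ) ∧
    (∀ (k κ ρ b : ℕ) (D : AddSubgroup (Fin (κ * b) → ZMod 2)), Nat.card D = 2 ^ (ρ * b) →
      ∀ R : RNet (Clause k (Fin (κ * b))), R.DecidesOn (Instances k κ b) (1 / 6) →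
        ∃ R' : RNet (Clause k (Fin (κ * b))), R'.SymUnder D ∧
          R'.DecidesOn (Instances k κ b) (1 / 3) ∧
          R'.size = ((2 : ℝ) ^ b) ^ ρ * R.size + 1) := by
  classical
  refine ⟨lower, ⟨notFPT_net, notFPT_lp⟩, fun k κ b => ⟨?_, ?_⟩, fun k κ ρ b D hD R hR => ?_⟩
  · refine ⟨_, inferInstance, brute k (Fin (κ * b)), brute_sym k _, fun Φ => brute_eval Φ, ?_⟩
    rw [brute_card, Fintype.card_fin, mul_comm κ b, pow_mul]
  · have hc : 2 ^ Fintype.card (Fin (κ * b)) = (2 ^ b) ^ κ := by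
      rw [Fintype.card_fin, mul_comm κ b, pow_mul]
    have key := brute_lp k (Fin (κ * b))
    rw [hc] at key
    exact key
  · obtain ⟨R', h1, h2, h3⟩ := converse k (2 ^ b / k) (ρ * b) _ D hD R hR
    refine ⟨R', h1, h2, ?_⟩
    rw [h3, mul_comm ρ b, pow_mul]

end Pool.Agent.Results.MP_ddf912_lc.MiniSatExponents
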