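import Pool.Agent.U195.WN.Fin

/-!
# `M[1] ≠ W[1]` and a strict `W`-hierarchy near every oracle

Let `O` be an arbitrary oracle and let `g` be a function which is not bounded by a polynomial (for
every `c` there are infinitely many `n` with `n ^ c < g m` for all `m ≥ n`). Then there is an oracle
`A` which differs from `O` on at most `g n` strings of length at most `n`, for all large `n`, and
relative to which the following holds.

* The model-checking problem for existential sentences on structures with binary relations, with the
  number of variables plus the length of the atoms as the parameter `k`, is in `W[1]`, but its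
  relations have no compression: no algorithm with running time `f k * poly |I|` produces, from an
  instance `I`, a string with at most `|I| / 17 + h k` bits which, together with the labels of the
  elements and the sentence, determines the answer. Here `f` and `h` are arbitrary functions, and
  nothing is assumed on how the answer is obtained from the string.
* The problems in `M[1]`, even in a wide nonuniform form, do have such compressions (even to
  `(h k * log |I|) ^ c` bits). So `W[1]` is not contained in `M[1]`.
* All levels of the `W`-hierarchy are different, starting with `W[1] ≠ FPT`: for every `t` the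
  model-checking problem for `Σ_{t+1,1}`-sentences is in `W[t+1]`, but not in `A[t] ⊇ W[t]`, even if
  the functions of the parameter in the definition of `A[t]` are not computable.

So the known classes of oracles with these properties (generic oracles, and for the last part
random ones) are replaced by all oracles, up to few changes.

The classes are defined in `Pool/Agent/Y626/WG/Defs.lean` (`W[t]`, `A[t]`) and
`Pool/Agent/Y581/WN/Mini.lean` (`InM1n`: `M[1]` in a wide nonuniform form). Relative to an oracle,
the reductions may ask the oracle, the elements of the structures are labelled with bit strings, and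
the sentences may contain atoms which say that the concatenation of the labels of some variables is
in the oracle.
-/

set_option autoImplicit false

namespace Pool.Agent.Results.MP_ddf912_lc.NearEveryOracle

open Filter
open Pool.Agent.NPC Pool.Agent.H620R2.Gauge Pool.Agent.Y626.WG
open Pool.Agent.Y581.WN (InM1n)

/-- The number of the strings of length at most `n` which distinguish the oracles. -/
noncomputable def dist (O A : Oracle) (n : ℕ) : ℕ :=
  {x : List Bool | x.length ≤ n ∧ A x ≠ O x}.ncard

/-- The parameterized problem `P` about the elements `a` of the encoded type `α`, with the parameter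
`κ a`, has a compression relative to `A`: after an arbitrary precomputation `π` on the parameter, a
string `r a` with at most `|a| / 17 + h (κ a)` bits is computed in polynomial time relative to `A`
which, together with the parameter, determines the answer. -/
def Comp (A : Oracle) {α : Type} [TEnc α] (κ : α → ℕ) (P : α → Prop) : Prop :=
  ∃ (π : ℕ → List Bool) (h : ℕ → ℕ) (M : Alg) (r : α → List Bool),
    (∀ a, M.out A (pairBits (π (κ a)) (bits a)) = some (r a) ∧
      17 * (r a).length ≤ h (κ a) + (bits a).length) ∧
    ∀ a b, κ a = κ b → r a = r b → (P a ↔ P b)

/-- The existential sentences have a compression of the relations relative to `A`: after an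
arbitrary precomputation on the parameter `k`, a string `r I` with at most `|I| / 17 + h k` bits is
computed in polynomial time relative to `A` which, together with the labels of the elements and the
sentence (its blocks of quantifiers, atoms and accepted vectors), determines the answer. -/
def RelComp (A : Oracle) : Prop :=
  ∃ (π : ℕ → List Bool) (h : ℕ → ℕ) (M : Alg) (r : WInst 1 → List Bool),
    (∀ I, M.out A (pairBits (π I.1.param) (bits I)) = some (r I) ∧
      17 * (r I).length ≤ h I.1.param + (bits I).length) ∧
    ∀ I J : WInst 1, I.1.labels = J.1.labels → I.1.blocks = J.1.blocks →
      I.1.atoms = J.1.atoms → I.1.acc = J.1.acc → r I = r J → (I.1.Sat A ↔ J.1.Sat A)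

theorem result (g : ℕ → ℝ)
    (hg : ∀ c : ℕ, ∃ᶠ n : ℕ in atTop, ∀ m ≥ n, (n : ℝ) ^ c < g m) (O : Oracle) :
    ∃ A : Oracle, (∀ᶠ n : ℕ in atTop, (dist O A n : ℝ) ≤ g n) ∧
      (InW 1 A (fun I : WInst 1 => I.1.param) (fun I => I.1.Sat A) ∧ ¬ RelComp A) ∧
      ((∀ (α : Type) [TEnc α] (κ : α → ℕ) (P : α → Prop), InM1n A κ P → Comp A κ P) ∧
        ¬ InM1n A (fun I : WInst 1 => I.1.param) (fun I => I.1.Sat A)) ∧
      ∀ t : ℕ,
        (∀ (α : Type) [TEnc α] (κ : α → ℕ) (P : α → Prop), InW t A κ P →
          InW (t + 1) A κ P ∧ InA t A κ P) ∧
        InW (t + 1) A (fun I : WInst (t + 1) => I.1.param) (fun I => I.1.Sat A) ∧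
        ¬ InA t A (fun I : WInst (t + 1) => I.1.param) (fun I => I.1.Sat A) := by
  obtain ⟨A, h1, h2, h3, h4, h5, h6⟩ := Pool.Agent.U195.WN.final (g := g) hg O
  exact ⟨A, h1, ⟨h2, h3⟩, ⟨h4, h5⟩, h6⟩

end Pool.Agent.Results.MP_ddf912_lc.NearEveryOracle
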