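import Pool.Agent.U965.SC.Main

/-!
# `M[1] = FPT` is much more frequent than `W[P] = FPT`: the exact sizes of the sets of oracles

Oracles are sets of bit strings, `FPT ⊆ M[1] ⊆ W[1] ⊆ ... ⊆ W[P]`. `Null f X` means that the set `X`
of oracles is a null set for the gauge `f` (for `f = 0` these are the Lebesgue null sets, for
`f N = (1 - s) N` the null sets of the `s`-dimensional Hausdorff measure). For every function `f`:

* the set of the oracles relative to which `M[1] = FPT` is a null set for the gauge `f` if and only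
  if, for some `C`, `f N ≤ 2 ^ ((log log N) ^ C)` for infinitely many `N`; the same is true for the
  larger set of the oracles with `M[1] ⊆ para-coNP` with advice, and for the smaller set of the
  oracles with `M[1] = FPT` and `PSPACE` in time `2 ^ (n ^ o(1))`, but `W[P]` not even contained in
  `para-coNP` with advice (so that `M[1] = FPT ≠ W[P]`);
* the set of the oracles relative to which `W[P] = FPT` (hence `M[1] = W[1] = ... = W[P]`) is a null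
  set for the gauge `f` if and only if, for all `ε > 0`, `f N ≤ 2 ^ ((log N) ^ ε)` for infinitely
  many `N`; the same is true for the larger set of the oracles with `W[P] ⊆ para-coNP` with advice,
  and for the smaller set of the oracles with `W[P] = FPT` and `NP ⊄ coNP / poly`.

So all these sets have measure zero and Hausdorff dimension one, but those with `W[P] = FPT` are
negligible among those with `M[1] = FPT`.

The laws for `W[P]` are assembled from the unused theorems `nullW`, `wp_fpt`, `ae_np` of the starting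
library (`Pool.Agent.TH678.WP`, `Pool.Agent.TH678.SETH`). The laws for `M[1]` (`Pool.Agent.U965.SC`)
are new; their proofs follow the ones for the exponential time hypothesis (`Pool.Agent.TH678.ETH`)
and for `W[P]`.
-/

set_option autoImplicit false

namespace Pool.Agent.Results.MP_ddf912_lc.SizesOfCollapses

open Filter Pool.Agent.H620R2.Gauge Pool.Agent.TH678.WP Pool.Agent.TH678.RS Pool.Agent.U965.SC

theorem result :
    (∀ (A : Oracle) (Q : Set (List Bool × ℕ)), (InFPT A Q → InMini A Q) ∧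
      (InMini A Q → InWP A Q) ∧ (InMini A Q → InM1 A Q) ∧ (InFPT A Q → InCoPN A Q)) ∧
    (∀ f : ℕ → ℝ,
      (Null f {A | ∀ Q, InMini A Q ↔ InFPT A Q} ↔
        ∃ C : ℕ, ∃ᶠ N : ℕ in atTop, f N ≤ 2 ^ ((Real.logb 2 (Real.logb 2 N)) ^ C)) ∧
      (Null f {A | ∀ Q, InMini A Q → InCoPN A Q} ↔
        ∃ C : ℕ, ∃ᶠ N : ℕ in atTop, f N ≤ 2 ^ ((Real.logb 2 (Real.logb 2 N)) ^ C)) ∧
      (Null f {A | (∀ L, IsPSPACE A L → Fast A L) ∧ (∀ Q, InM1 A Q ↔ InFPT A Q) ∧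
          (∀ Q, InMini A Q ↔ InFPT A Q) ∧ ∃ Q, InWP A Q ∧ ¬ InCoPN A Q} ↔
        ∃ C : ℕ, ∃ᶠ N : ℕ in atTop, f N ≤ 2 ^ ((Real.logb 2 (Real.logb 2 N)) ^ C)) ∧
      (Null f {A | ∀ Q, InWP A Q ↔ InFPT A Q} ↔
        ∀ ε : ℝ, 0 < ε → ∃ᶠ N : ℕ in atTop, f N ≤ 2 ^ (Real.logb 2 N) ^ ε) ∧
      (Null f {A | ∀ Q, InWP A Q → InCoPN A Q} ↔
        ∀ ε : ℝ, 0 < ε → ∃ᶠ N : ℕ in atTop, f N ≤ 2 ^ (Real.logb 2 N) ^ ε) ∧
      (Null f {A | (∀ Q, InWP A Q ↔ InFPT A Q) ∧ ∃ L, IsNP A L ∧ ¬ WithAdvice (IsNP A) Lᶜ} ↔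
        ∀ ε : ℝ, 0 < ε → ∃ᶠ N : ℕ in atTop, f N ≤ 2 ^ (Real.logb 2 N) ^ ε)) ∧
    ∃ f : ℕ → ℝ, Null f {A | ∀ Q, InWP A Q → InCoPN A Q} ∧
      ¬ Null f {A | (∀ Q, InM1 A Q ↔ InFPT A Q) ∧ ∃ Q, InWP A Q ∧ ¬ InCoPN A Q} := by
  have hm : ∀ A : Oracle, (∀ L, IsPSPACE A L → Fast A L) →
      (∀ Q, InM1 A Q ↔ InFPT A Q) ∧ (∀ Q, InMini A Q ↔ InFPT A Q) := fun A hA =>
    ⟨fun Q => ⟨m1_fpt hA, fpt_m1⟩, fun Q => ⟨fun h => m1_fpt hA (mini_m1 h), fpt_mini⟩⟩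
  have hco : ∀ A : Oracle, ¬ InCoPN A (hitW A) → ∃ Q, InWP A Q ∧ ¬ InCoPN A Q := fun A h =>
    ⟨hitW A, hitW_wp A, h⟩
  refine ⟨fun A Q => ⟨fpt_mini, mini_wp, mini_m1, fpt_co⟩, fun f => ⟨?_, ?_, ?_, ?_, ?_, ?_⟩, ?_⟩
  · exact law_m1 f _ (fun A hA _ => (hm A hA).2) (fun A hA Q hQ => fpt_co ((hA Q).1 hQ))
  · exact law_m1 f _ (fun A hA _ Q hQ => fpt_co (((hm A hA).2 Q).1 hQ)) (fun A hA => hA)
  · exact law_m1 f _ (fun A hA h => ⟨hA, (hm A hA).1, (hm A hA).2, hco A h⟩)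
      (fun A hA Q hQ => fpt_co ((hA.2.2.1 Q).1 hQ))
  · exact law_wp f _ (fun A hA _ => show ∀ Q, InWP A Q ↔ InFPT A Q from fun Q => ⟨hA Q, fpt_wp⟩) (fun A hA Q hQ => fpt_co ((hA Q).1 hQ))
  · exact law_wp f _ (fun A hA _ Q hQ => fpt_co (hA Q hQ)) (fun A hA => hA)
  · exact law_wp f _ (fun A hA h => ⟨fun Q => ⟨hA Q, fpt_wp⟩, h⟩)
      (fun A hA Q hQ => fpt_co ((hA.1 Q).1 hQ))
  · refine ⟨g₀, (law_wp g₀ _ (fun A hA _ Q hQ => fpt_co (hA Q hQ)) (fun A hA => hA)).2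
      (fun ε hε => (g₀_small ε hε).frequently), fun h => ?_⟩
    obtain ⟨C, hC⟩ := (law_m1 g₀
      {A | (∀ Q, InM1 A Q ↔ InFPT A Q) ∧ ∃ Q, InWP A Q ∧ ¬ InCoPN A Q}
      (fun A hA h => ⟨(hm A hA).1, hco A h⟩)
      (fun A hA Q hQ => fpt_co ((hA.1 Q).1 (mini_m1 hQ)))).1 h
    exact hC ((g₀_big C).mono fun N hN => not_le.2 hN)

end Pool.Agent.Results.MP_ddf912_lc.SizesOfCollapses
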